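import Pool.Agent.SCT.StmtsP

/-!
# Row DPF of squad SCT (MP_02d4f5_ag): the dimension of the points of the surface
-/

set_option autoImplicit false

namespace Pool.Agent.SCT.H13

open MvPolynomial Pool.Agent.SCT

/-- a form of degree `e` at the multiple of a point -/
theorem aeval_mul {k R ι : Type} [Field k] [CommRing R] [Algebra k R] [Fintype ι]
    {h : MvPolynomial ι k} {e : ℕ} (hh : h.IsHomogeneous e) (c : R) (z : ι → R) :
    aeval (fun i => c * z i) h = c ^ e * aeval z h := by
  classical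
  rw [aeval_def, aeval_def, eval₂_eq', eval₂_eq', Finset.mul_sum]
  refine Finset.sum_congr rfl fun d hd => ?_
  have h1 : ∑ i, d i = e := by
    have h2 := hh (mem_support_iff.1 hd)
    rw [← h2, Finsupp.weight_apply, Finsupp.sum_fintype]
    · simp
    · simp
  simp only [mul_pow, Finset.prod_mul_distrib]
  rw [Finset.prod_pow_eq_pow_sum, h1]
  ring

theorem hom_aeval {k A B ι : Type} [Field k] [CommRing A] [CommRing B] [Algebra k A] [Algebra k B]
    (e : A →ₐ[k] B) (x : ι → A) (f : MvPolynomial ι k) :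
    e (aeval x f) = aeval (fun i => e (x i)) f := by
  have h : e.comp (aeval x) = aeval (fun i => e (x i)) := by
    apply MvPolynomial.algHom_ext
    intro i
    simp
  rw [← h]
  rfl

/-- the matrix `N(v)` over a ring -/
def nr (E : Type) [Field E] {R : Type} [CommRing R] [Algebra E R]
    (m : Fin (4 + 2) → Matrix (Fin (4 + 2)) (Fin (4 + 2)) E) (v : Fin (4 + 2) → R) :
    Matrix (Fin (4 + 2)) (Fin (4 + 2)) R :=
  Matrix.of fun i k => ∑ j, algebraMap E R (m k i j) * v j

section basic

variable {E : Type} [Field E] {m : Fin (4 + 2) → Matrix (Fin (4 + 2)) (Fin (4 + 2)) E}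

theorem nr_eq {Ω : Type} [Field Ω] [Algebra E Ω] (v : Fin (4 + 2) → Ω) : nr E m v = nm E m v := rfl

theorem nr_map {R S : Type} [CommRing R] [Algebra E R] [CommRing S] [Algebra E S] (e : R →ₐ[E] S)
    (v : Fin (4 + 2) → R) : (nr E m v).map e = nr E m (fun i => e (v i)) := by
  ext i j
  simp only [nr, Matrix.of_apply, Matrix.map_apply, map_sum, map_mul, AlgHom.commutes]

theorem adj_map {R S : Type} [CommRing R] [Algebra E R] [CommRing S] [Algebra E S] (e : R →ₐ[E] S)
    (v : Fin (4 + 2) → R) (i l : Fin (4 + 2)) :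
    e ((nr E m v).adjugate i l) = (nr E m (fun i => e (v i))).adjugate i l := by
  have h := AlgHom.map_adjugate e (nr E m v)
  have h2 : e.mapMatrix (nr E m v) = nr E m (fun i => e (v i)) := nr_map e v
  rw [h2] at h
  have h3 := congrFun (congrFun h i) l
  exact h3

theorem adj_smul {R : Type} [CommRing R] [Algebra E R] (c : R) (v : Fin (4 + 2) → R) :
    (nr E m (fun i => c * v i)).adjugate = c ^ 5 • (nr E m v).adjugate := by
  have h1 : nr E m (fun i => c * v i) = c • nr E m v := by
    ext i j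
    simp only [nr, Matrix.of_apply, Matrix.smul_apply, smul_eq_mul, Finset.mul_sum]
    apply Finset.sum_congr rfl
    intro k _
    ring
  rw [h1, Matrix.adjugate_smul]
  simp

/-- a kernel of dimension one -/
theorem ker_one (h : AdjStmt) {F : Type} [Field F] {A : Matrix (Fin (4 + 2)) (Fin (4 + 2)) F}
    (hA : A.adjugate ≠ 0) {a b : Fin (4 + 2) → F} (ha : a ≠ 0) (h1 : A.mulVec a = 0)
    (h2 : A.mulVec b = 0) : ∃ μ : F, ∀ i, b i = μ * a i := by
  by_contra hcon
  push Not at hcon
  apply hA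
  rw [h F A]
  refine ⟨a, b, ?_, h1, h2⟩
  rw [LinearIndependent.pair_iff' ha]
  intro μ hμ
  obtain ⟨i, hi⟩ := hcon μ
  apply hi
  rw [← hμ]
  rfl

theorem col_ker {F : Type} [Field F] {A : Matrix (Fin (4 + 2)) (Fin (4 + 2)) F} (hA : A.det = 0)
    (l : Fin (4 + 2)) : A.mulVec (fun i => A.adjugate i l) = 0 := by
  have h := Matrix.mul_adjugate A
  rw [hA, zero_smul] at h
  funext i
  have h2 := congrFun (congrFun h i) l
  rw [Matrix.mul_apply] at h2
  exact h2

theorem det_nm {f : MvPolynomial (Fin (4 + 2)) E} {c : E} (h : Pf E f m c) {Ω : Type} [Field Ω]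
    [Algebra E Ω] (v : Fin (4 + 2) → Ω) (hv : v ≠ 0) : (nm E m v).det = 0 := by
  classical
  rw [← Matrix.exists_vecMul_eq_zero_iff]
  refine ⟨v, hv, ?_⟩
  funext k
  have h1 : (nm E m v).mulVec (Pi.single k 1) = (pm E m (Pi.single k 1)).mulVec v :=
    nm_mulVec v (Pi.single k 1)
  have h2 : v ⬝ᵥ (nm E m v).mulVec (Pi.single k 1) = 0 := by
    rw [h1]
    exact alt_self (pm_diag h _) (pm_alt h _) v
  rw [Matrix.dotProduct_mulVec] at h2
  rw [dotProduct_single, mul_one] at h2
  exact h2

/-- dual rows of independent vectors -/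
theorem dual_rows {F : Type} [Field F] (w : Fin 3 → Fin (4 + 2) → F) (hw : LinearIndependent F w) :
    ∃ r : Fin 3 → Fin (4 + 2) → F, ∀ a b, r a ⬝ᵥ w b = if a = b then 1 else 0 := by
  classical
  have hinj : LinearMap.ker (Fintype.linearCombination F w) = ⊥ := by
    exact LinearMap.ker_eq_bot.2 hw.fintypeLinearCombination_injective
  obtain ⟨g, hg⟩ := LinearMap.exists_leftInverse_of_injective (Fintype.linearCombination F w) hinj
  refine ⟨fun a j => g (Pi.single j 1) a, ?_⟩
  intro a b
  have h1 := LinearMap.congr_fun hg (Pi.single b 1)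
  rw [LinearMap.comp_apply, LinearMap.id_apply, Fintype.linearCombination_apply_single,
    one_smul] at h1
  have h2 : w b = ∑ j, w b j • (Pi.single j 1 : Fin (4 + 2) → F) := by
    funext i
    simp [Finset.sum_apply, Pi.single_apply]
  rw [h2, map_sum] at h1
  have h3 := congrFun h1 a
  rw [Finset.sum_apply] at h3
  simp only [map_smul, Pi.smul_apply, smul_eq_mul] at h3
  rw [Pi.single_apply] at h3
  rw [dotProduct]
  rw [← h3]
  apply Finset.sum_congr rfl
  intro j _
  ring


/-- the data over the field of the point -/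
theorem stepA [IsAlgClosed E] (hPDT : PdtStmt) (hEVK : EvkStmt) (hLSX : LsxStmt) (hCRK : CrkStmt)
    {f : MvPolynomial (Fin (4 + 2)) E} {c : E} (hf : f.IsHomogeneous 3) (hN : Nonsing E 4 f)
    (hp : Pf E f m c) {Ω : Type} [Field Ω] [Algebra E Ω] (ξ : Fin (4 + 2) → E)
    (v p : Fin (4 + 2) → Ω) (hξ : ξ ≠ 0) (j : Fin (4 + 2)) (hj : p j ≠ 0) (hfp : aeval p f = 0)
    (hv : (pm E m p).mulVec v = fun i => algebraMap E Ω (ξ i)) :
    ∃ (q : Fin (4 + 2) → rat E p) (w : Fin 3 → Fin (4 + 2) → rat E p)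
      (r : Fin 3 → Fin (4 + 2) → rat E p) (α : Fin 2 → Ω),
      (∀ i, (q i : Ω) = p i / p j) ∧ aeval q f = 0 ∧
      (pm E m q).mulVec (w 0) = (fun i => algebraMap E (rat E p) (ξ i)) ∧
      (pm E m q).mulVec (w 1) = 0 ∧ (pm E m q).mulVec (w 2) = 0 ∧
      (∀ a b, r a ⬝ᵥ w b = if a = b then 1 else 0) ∧
      (∀ i, p j * v i = w 0 i + α 0 * w 1 i + α 1 * w 2 i) ∧
      (∀ a, ∑ i, algebraMap E (rat E p) (ξ i) * w a i = 0) := by
  classical
  set C := rat E p with hC
  have hmem : ∀ i, p i / p j ∈ C := fun i => IntermediateField.subset_adjoin _ _ ⟨i, j, rfl⟩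
  set q : Fin (4 + 2) → C := fun i => ⟨p i / p j, hmem i⟩ with hq
  have hqv : (fun i => C.val (q i)) = fun i => (p j)⁻¹ * p i := by
    funext i
    change p i / p j = (p j)⁻¹ * p i
    rw [div_eq_inv_mul]
  have hfq : aeval q f = 0 := by
    rw [← map_eq_zero C.val, hom_aeval C.val q f, hqv, aeval_mul hf, hfp, mul_zero]
  have hqne : (fun i => C.val (q i)) ≠ 0 := by
    intro h
    rw [hqv] at h
    have h1 : (p j)⁻¹ * p j = 0 := congrFun h j
    rw [inv_mul_cancel₀ hj] at h1
    exact one_ne_zero h1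
  have hMq : (pm E m (fun i => C.val (q i))).mulVec (fun i => p j * v i)
      = fun i => algebraMap E Ω (ξ i) := by
    rw [hqv, pm_smul]
    have h1 : (fun i => p j * v i) = p j • v := rfl
    rw [h1, Matrix.mulVec_smul, Matrix.smul_mulVec, smul_smul, mul_inv_cancel₀ hj, one_smul, hv]
  have hval : ∀ z : C, algebraMap C Ω z = C.val z := fun _ => rfl
  have hmapv : (pm E m q).map (algebraMap C Ω) = pm E m (fun i => C.val (q i)) := by
    rw [pm_map C.val q]
    rfl
  obtain ⟨w0, hw0⟩ := hLSX C Ω (Fin (4 + 2)) (Fin (4 + 2)) (pm E m q)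
    (fun i => algebraMap E C (ξ i)) (fun i => p j * v i) (by
      rw [hmapv, hMq]
      funext i
      rw [← IsScalarTower.algebraMap_apply])
  have hinf : Infinite E := inferInstance
  have hdet : (pm E m q).det = 0 := by
    rw [hPDT E f m c hp C q, hfq]
    simp
  obtain ⟨w1, hw1n, hw1⟩ := Matrix.exists_mulVec_eq_zero_iff.2 hdet
  obtain ⟨w2, hw2, hind⟩ := hEVK C (pm E m q) (pm_diag hp q) (pm_alt hp q) w1 hw1n hw1
  have hξC : (fun i => algebraMap E C (ξ i)) ≠ 0 := by
    intro h
    apply hξ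
    funext i
    have h1 := congrFun h i
    simpa using h1
  have hind3 : LinearIndependent C ![w0, w1, w2] := by
    rw [Fintype.linearIndependent_iff]
    intro g hg
    rw [Fin.sum_univ_three] at hg
    simp only [Matrix.cons_val_zero, Matrix.cons_val_one, Matrix.cons_val_two, Matrix.head_cons,
      Matrix.tail_cons] at hg
    have h1 := congrArg (pm E m q).mulVec hg
    rw [Matrix.mulVec_add, Matrix.mulVec_add, Matrix.mulVec_smul, Matrix.mulVec_smul,
      Matrix.mulVec_smul, hw0, hw1, hw2, smul_zero, smul_zero, add_zero, add_zero,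
      Matrix.mulVec_zero] at h1
    have h0 : g 0 = 0 := by
      rcases smul_eq_zero.1 h1 with h | h
      · exact h
      · exact absurd h hξC
    rw [h0, zero_smul, zero_add] at hg
    have h2 := (LinearIndependent.pair_iff.1 hind) (g 1) (g 2) hg
    intro i
    fin_cases i
    · exact h0
    · exact h2.1
    · exact h2.2
  obtain ⟨r, hr⟩ := dual_rows ![w0, w1, w2] hind3
  -- the vectors over `Ω`
  set u0 : Fin (4 + 2) → Ω := fun i => C.val (w0 i) with hu0
  set u1 : Fin (4 + 2) → Ω := fun i => C.val (w1 i) with hu1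
  set u2 : Fin (4 + 2) → Ω := fun i => C.val (w2 i) with hu2
  have hup : ∀ (z b : Fin (4 + 2) → C), (pm E m q).mulVec z = b →
      (pm E m (fun i => C.val (q i))).mulVec (fun i => C.val (z i)) = fun i => C.val (b i) := by
    intro z b h
    rw [pm_map C.val q]
    funext i
    have h1 := congrArg C.val (congrFun h i)
    rw [← h1]
    simp only [Matrix.mulVec, dotProduct, map_sum, map_mul, Matrix.map_apply]
  have hM1 : (pm E m (fun i => C.val (q i))).mulVec u1 = 0 := by
    rw [hup w1 0 hw1]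
    funext i
    simp
  have hM2 : (pm E m (fun i => C.val (q i))).mulVec u2 = 0 := by
    rw [hup w2 0 hw2]
    funext i
    simp
  have hM0 : (pm E m (fun i => C.val (q i))).mulVec u0 = fun i => algebraMap E Ω (ξ i) := by
    rw [hup w0 _ hw0]
    funext i
    exact C.val.commutes (ξ i)
  set d : Fin (4 + 2) → Ω := (fun i => p j * v i) - u0 with hd
  have hMd : (pm E m (fun i => C.val (q i))).mulVec d = 0 := by
    rw [hd, Matrix.mulVec_sub, hMq, hM0, sub_self]
  have hfqΩ : aeval (fun i => C.val (q i)) f = 0 := by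
    rw [← hom_aeval C.val q f, hfq, map_zero]
  have hdep := hCRK E f m c hf hN hp Ω (fun i => C.val (q i)) hqne hfqΩ u1 u2 d hM1 hM2 hMd
  obtain ⟨g, hg, hgn⟩ := Fintype.not_linearIndependent_iff.1 hdep
  rw [Fin.sum_univ_three] at hg
  simp only [Matrix.cons_val_zero, Matrix.cons_val_one, Matrix.cons_val_two, Matrix.head_cons,
    Matrix.tail_cons] at hg
  have hdual : ∀ a b, (fun i => C.val (r a i)) ⬝ᵥ (fun i => C.val ((![w0, w1, w2] b) i))
      = if a = b then 1 else 0 := by
    intro a b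
    have h1 := congrArg C.val (hr a b)
    rw [dotProduct, map_sum] at h1
    simp only [map_mul] at h1
    rw [dotProduct, h1]
    split_ifs <;> simp
  have hg2 : g 2 ≠ 0 := by
    intro h2
    rw [h2, zero_smul, add_zero] at hg
    have h11 : (fun i => C.val (r 1 i)) ⬝ᵥ u1 = 1 := (hdual 1 1).trans (if_pos rfl)
    have h12 : (fun i => C.val (r 1 i)) ⬝ᵥ u2 = 0 := (hdual 1 2).trans (if_neg (by decide))
    have h21 : (fun i => C.val (r 2 i)) ⬝ᵥ u1 = 0 := (hdual 2 1).trans (if_neg (by decide))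
    have h22 : (fun i => C.val (r 2 i)) ⬝ᵥ u2 = 1 := (hdual 2 2).trans (if_pos rfl)
    have e1 := congrArg (fun z => (fun i => C.val (r 1 i)) ⬝ᵥ z) hg
    have e2 := congrArg (fun z => (fun i => C.val (r 2 i)) ⬝ᵥ z) hg
    simp only [dotProduct_add, dotProduct_smul, dotProduct_zero, h11, h12, h21, h22, smul_eq_mul,
      mul_one, mul_zero, add_zero, zero_add] at e1 e2
    obtain ⟨i, hi⟩ := hgn
    apply hi
    fin_cases i
    · exact e1
    · exact e2
    · exact h2
  refine ⟨q, ![w0, w1, w2], r, ![-(g 0 / g 2), -(g 1 / g 2)], fun i => rfl, hfq, hw0, hw1, hw2, hr,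
    ?_, ?_⟩
  · intro i
    have h1 := congrFun hg i
    simp only [Pi.add_apply, Pi.smul_apply, smul_eq_mul, Pi.zero_apply] at h1
    have h2 : d i = p j * v i - u0 i := rfl
    rw [h2] at h1
    change p j * v i = u0 i + -(g 0 / g 2) * u1 i + -(g 1 / g 2) * u2 i
    field_simp
    linear_combination h1
  · intro a
    have hgen : ∀ b : Fin (4 + 2) → C, (b ⬝ᵥ (pm E m q).mulVec w0 = 0) →
        ∑ i, algebraMap E C (ξ i) * b i = 0 := by
      intro b hb
      rw [hw0, dotProduct] at hb
      rw [← hb]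
      exact Finset.sum_congr rfl fun i _ => mul_comm _ _
    fin_cases a
    · exact hgen w0 (alt_self (pm_diag hp q) (pm_alt hp q) w0)
    · refine hgen w1 ?_
      rw [alt_dot (pm_alt hp q), hw1, dotProduct_zero, neg_zero]
    · refine hgen w2 ?_
      rw [alt_dot (pm_alt hp q), hw2, dotProduct_zero, neg_zero]

end basic

/-! ### two independent variables -/

section two

/-- polynomials in two variables -/
abbrev RR (Ω : Type) [Field Ω] : Type := MvPolynomial (Fin 2) Ω

/-- rational functions in two variables -/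
abbrev FF (Ω : Type) [Field Ω] : Type := FractionRing (MvPolynomial (Fin 2) Ω)

variable {E : Type} [Field E] {Ω : Type} [Field Ω] [Algebra E Ω]
  {m : Fin (4 + 2) → Matrix (Fin (4 + 2)) (Fin (4 + 2)) E}

/-- polynomials to fractions -/
noncomputable def kap (E : Type) [Field E] (Ω : Type) [Field Ω] [Algebra E Ω] :
    RR Ω →ₐ[E] FF Ω := IsScalarTower.toAlgHom E (RR Ω) (FF Ω)

/-- constants to fractions -/
noncomputable def iot (E : Type) [Field E] (Ω : Type) [Field Ω] [Algebra E Ω] :
    Ω →ₐ[E] FF Ω := IsScalarTower.toAlgHom E Ω (FF Ω)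

/-- evaluation -/
noncomputable def evv (E : Type) [Field E] (Ω : Type) [Field Ω] [Algebra E Ω] (α : Fin 2 → Ω) :
    RR Ω →ₐ[E] Ω := (aeval α : RR Ω →ₐ[Ω] Ω).restrictScalars E

theorem kap_inj : Function.Injective (kap E Ω) := IsFractionRing.injective (RR Ω) (FF Ω)

theorem kap_C (z : Ω) : kap E Ω (C z) = iot E Ω z := by
  change algebraMap (RR Ω) (FF Ω) (algebraMap Ω (RR Ω) z) = algebraMap Ω (FF Ω) z
  rw [← IsScalarTower.algebraMap_apply]

theorem evv_C (α : Fin 2 → Ω) (z : Ω) : evv E Ω α (C z) = z := by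
  change aeval α (C z) = z
  rw [aeval_C]
  rfl

theorem evv_X (α : Fin 2 → Ω) (i : Fin 2) : evv E Ω α (X i) = α i := by
  change aeval α (X i) = α i
  rw [aeval_X]

/-- the generic vector -/
noncomputable def VR (u : Fin 3 → Fin (4 + 2) → Ω) (k : Fin (4 + 2)) : RR Ω :=
  C (u 0 k) + X 0 * C (u 1 k) + X 1 * C (u 2 k)

theorem evv_VR (α : Fin 2 → Ω) (u : Fin 3 → Fin (4 + 2) → Ω) (k : Fin (4 + 2)) :
    evv E Ω α (VR u k) = u 0 k + α 0 * u 1 k + α 1 * u 2 k := by
  unfold VR
  rw [map_add, map_add, map_mul, map_mul, evv_C, evv_C, evv_C, evv_X, evv_X]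

theorem kap_VR (u : Fin 3 → Fin (4 + 2) → Ω) (k : Fin (4 + 2)) :
    kap E Ω (VR u k) = iot E Ω (u 0 k) + kap E Ω (X 0) * iot E Ω (u 1 k)
      + kap E Ω (X 1) * iot E Ω (u 2 k) := by
  unfold VR
  rw [map_add, map_add, map_mul, map_mul, kap_C, kap_C, kap_C]

theorem dot_VR (s : Fin (4 + 2) → Ω) (u : Fin 3 → Fin (4 + 2) → Ω) :
    ∑ i, iot E Ω (s i) * kap E Ω (VR u i) = iot E Ω (s ⬝ᵥ u 0)
      + kap E Ω (X 0) * iot E Ω (s ⬝ᵥ u 1) + kap E Ω (X 1) * iot E Ω (s ⬝ᵥ u 2) := by
  simp only [dotProduct, map_sum, map_mul, kap_VR, Finset.mul_sum]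
  rw [← Finset.sum_add_distrib, ← Finset.sum_add_distrib]
  apply Finset.sum_congr rfl
  intro i _
  ring

theorem algInd (D : IntermediateField E Ω) :
    AlgebraicIndependent (D.map (iot E Ω)) ![kap E Ω (X 0), kap E Ω (X 1)] := by
  have h1 : AlgebraicIndependent Ω (X : Fin 2 → RR Ω) := algebraicIndependent_X (Fin 2) Ω
  have h2 := h1.map' (f := IsScalarTower.toAlgHom Ω (RR Ω) (FF Ω))
    (IsFractionRing.injective (RR Ω) (FF Ω))
  have h3 : (⇑(IsScalarTower.toAlgHom Ω (RR Ω) (FF Ω)) ∘ (X : Fin 2 → RR Ω))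
      = ![kap E Ω (X 0), kap E Ω (X 1)] := by
    funext i
    fin_cases i <;> rfl
  rw [h3] at h2
  let e := (D.equivMap (iot E Ω)).symm
  let φ : (D.map (iot E Ω)) →+* Ω := (D.val : D →+* Ω).comp (e : (D.map (iot E Ω)) →+* D)
  refine AlgebraicIndependent.of_ringHom_of_comp_eq (S := Ω) (B := FF Ω) φ (RingHom.id (FF Ω))
    h2 φ.injective ?_
  ext x
  have h4 : (D.equivMap (iot E Ω)) (e x) = x := (D.equivMap (iot E Ω)).apply_symm_apply x
  have h5 : (iot E Ω) ((e x : D) : Ω) = (x : FF Ω) := by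
    exact congrArg Subtype.val h4
  exact h5

end two

theorem pm_up {E : Type} [Field E] {m : Fin (4 + 2) → Matrix (Fin (4 + 2)) (Fin (4 + 2)) E}
    {A B : Type} [Field A] [Algebra E A] [Field B] [Algebra E B] (e : A →ₐ[E] B)
    (q z b : Fin (4 + 2) → A) (h : (pm E m q).mulVec z = b) :
    (pm E m (fun i => e (q i))).mulVec (fun i => e (z i)) = fun i => e (b i) := by
  rw [pm_map e q]
  funext i
  have h1 := congrArg e (congrFun h i)
  rw [← h1]
  simp only [Matrix.mulVec, dotProduct, map_sum, map_mul, Matrix.map_apply]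

/-- **Row DPF**. -/
theorem dpf (hPDT : PdtStmt) (hEVK : EvkStmt) (hLSX : LsxStmt) (hADJ : AdjStmt) (hCRK : CrkStmt)
    (hHYD : HydStmt) (hCNT : CntStmt) : DpfStmt := by
  classical
  intro E _ _ f m c hf hN hp Ω _ _ ξ v p x hξ hpn hfp hv hadj hx hs
  obtain ⟨j, hj⟩ : ∃ j, p j ≠ 0 := Function.ne_iff.1 hpn
  have hstep := stepA hPDT hEVK hLSX hCRK hf hN hp ξ v p hξ j hj hfp hv
  obtain ⟨D, hD⟩ : ∃ D : IntermediateField E Ω, D = rat E p := ⟨_, rfl⟩
  rw [← hD] at hstep
  obtain ⟨q, w, r, α, hq, hfq, hw0, hw1, hw2, hr, hα, hξw⟩ := hstep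
  set u : Fin 3 → Fin (4 + 2) → Ω := fun a i => D.val (w a i) with hu
  set qo : Fin (4 + 2) → Ω := fun i => D.val (q i) with hqo
  have hqo' : ∀ i, qo i = p i / p j := hq
  have hvn : v ≠ 0 := by
    rintro rfl
    rw [Matrix.mulVec_zero] at hv
    apply hξ
    funext i
    have h1 := congrFun hv i
    simp only [Pi.zero_apply] at h1
    have h2 : algebraMap E Ω (ξ i) = 0 := h1.symm
    exact (map_eq_zero _).1 h2
  obtain ⟨i0, l, hil⟩ : ∃ i l, (nm E m v).adjugate i l ≠ 0 := by
    by_contra hcon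
    push Not at hcon
    apply hadj
    ext i l
    exact hcon i l
  set xR : Fin (4 + 2) → RR Ω := fun k => (nr E m (VR u)).adjugate k l with hxR
  have hev : ∀ k, evv E Ω α (xR k) = p j ^ 5 * (nm E m v).adjugate k l := by
    intro k
    have h0 : evv E Ω α (xR k) = (nr E m (fun i => evv E Ω α (VR u i))).adjugate k l :=
      adj_map (evv E Ω α) (VR u) k l
    have h1 : (fun i => evv E Ω α (VR u i)) = fun i => p j * v i := by
      funext i
      rw [evv_VR]
      exact (hα i).symm
    rw [h0, h1, adj_smul]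
    rfl
  have hNx : (nm E m v).mulVec x = 0 := by
    rw [nm_mulVec]
    exact hx
  have hcol := col_ker (det_nm hp v hvn) l
  have hcoln : (fun k => (nm E m v).adjugate k l) ≠ 0 := fun h => hil (congrFun h i0)
  obtain ⟨μ, hμ⟩ := ker_one hADJ hadj hcoln hcol hNx
  obtain ⟨s, hs⟩ := hs
  obtain ⟨s', hs'⟩ : ∃ s' : Ω, aeval (fun i => qo i + s' * evv E Ω α (xR i)) f ≠ 0 := by
    refine ⟨s * μ / (p j * p j ^ 5), ?_⟩
    intro h
    apply hs
    have h1 : (fun i => p i + s * x i) = fun i => p j * (qo i + s * μ / (p j * p j ^ 5) *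
        evv E Ω α (xR i)) := by
      funext i
      rw [hev, hμ i, hqo' i]
      field_simp
    rw [h1, aeval_mul hf, h, mul_zero]
  -- over the field of rational functions
  set V : Fin (4 + 2) → FF Ω := fun k => kap E Ω (VR u k) with hV
  have hdual : ∀ a b, (fun i => D.val (r a i)) ⬝ᵥ u b = if a = b then 1 else 0 := by
    intro a b
    have h1 := congrArg D.val (hr a b)
    rw [dotProduct, map_sum] at h1
    simp only [map_mul] at h1
    rw [dotProduct, h1]
    split_ifs <;> simp
  have hd0 : ∑ i, iot E Ω (D.val (r 0 i)) * V i = 1 := by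
    have h1 := dot_VR (E := E) (fun i => D.val (r 0 i)) u
    rw [hdual, hdual, hdual, if_pos rfl, if_neg (by decide), if_neg (by decide)] at h1
    rw [h1]
    simp
  have hd1 : ∑ i, iot E Ω (D.val (r 1 i)) * V i = kap E Ω (X 0) := by
    have h1 := dot_VR (E := E) (fun i => D.val (r 1 i)) u
    rw [hdual, hdual, hdual, if_neg (by decide), if_pos rfl, if_neg (by decide)] at h1
    rw [h1]
    simp
  have hd2 : ∑ i, iot E Ω (D.val (r 2 i)) * V i = kap E Ω (X 1) := by
    have h1 := dot_VR (E := E) (fun i => D.val (r 2 i)) u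
    rw [hdual, hdual, hdual, if_neg (by decide), if_neg (by decide), if_pos rfl] at h1
    rw [h1]
    simp
  have hVn : V ≠ 0 := by
    intro h
    rw [h] at hd0
    simp at hd0
  obtain ⟨i1, hi1⟩ : ∃ i, V i ≠ 0 := Function.ne_iff.1 hVn
  have hξu : ∀ a, (fun i => algebraMap E Ω (ξ i)) ⬝ᵥ u a = 0 := by
    intro a
    have h1 := congrArg D.val (hξw a)
    rw [map_sum, map_zero] at h1
    rw [dotProduct, ← h1]
    apply Finset.sum_congr rfl
    intro i _
    rw [map_mul, D.val.commutes]
  have hξV : ∑ i, algebraMap E (FF Ω) (ξ i) * V i = 0 := by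
    have h1 := dot_VR (E := E) (fun i => algebraMap E Ω (ξ i)) u
    rw [hξu, hξu, hξu] at h1
    simp only [map_zero, mul_zero, add_zero] at h1
    rw [← h1]
    apply Finset.sum_congr rfl
    intro i _
    rw [(iot E Ω).commutes]
  have hdim : DimLe E V 4 := hHYD E (FF Ω) 4 V ξ hξ hξV
  -- the equation for `V`
  set po : Fin (4 + 2) → FF Ω := fun i => iot E Ω (qo i) with hpo
  have hMV : (pm E m po).mulVec V = fun i => algebraMap E (FF Ω) (ξ i) := by
    have e0 := pm_up ((iot E Ω).comp D.val) q (w 0) _ hw0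
    have e1 := pm_up ((iot E Ω).comp D.val) q (w 1) _ hw1
    have e2 := pm_up ((iot E Ω).comp D.val) q (w 2) _ hw2
    have hVs : V = (fun i => iot E Ω (u 0 i)) + (kap E Ω (X 0)) • (fun i => iot E Ω (u 1 i))
        + (kap E Ω (X 1)) • (fun i => iot E Ω (u 2 i)) := by
      funext i
      exact kap_VR u i
    have e0' : (pm E m po).mulVec (fun i => iot E Ω (u 0 i))
        = fun i => algebraMap E (FF Ω) (ξ i) := by
      refine e0.trans ?_
      funext i
      exact ((iot E Ω).comp D.val).commutes (ξ i)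
    have e1' : (pm E m po).mulVec (fun i => iot E Ω (u 1 i)) = 0 := by
      refine e1.trans ?_
      funext i
      exact map_zero _
    have e2' : (pm E m po).mulVec (fun i => iot E Ω (u 2 i)) = 0 := by
      refine e2.trans ?_
      funext i
      exact map_zero _
    rw [hVs, Matrix.mulVec_add, Matrix.mulVec_add, Matrix.mulVec_smul, Matrix.mulVec_smul, e0',
      e1', e2', smul_zero, smul_zero, add_zero, add_zero]
  -- the field of `V`
  set C1 := rat E V with hC1
  set ν := V i1 with hν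
  have hmem1 : ∀ i, V i / ν ∈ C1 := fun i => IntermediateField.subset_adjoin _ _ ⟨i, i1, rfl⟩
  set V1 : Fin (4 + 2) → C1 := fun i => ⟨V i / ν, hmem1 i⟩ with hV1d
  have hV1 : (fun i => C1.val (V1 i)) = fun i => ν⁻¹ * V i := by
    funext i
    change V i / ν = ν⁻¹ * V i
    rw [div_eq_inv_mul]
  set x1 : Fin (4 + 2) → C1 := fun k => (nr E m V1).adjugate k l with hx1d
  have hxV : ∀ k, (nr E m V).adjugate k l = kap E Ω (xR k) := fun k =>
    (adj_map (kap E Ω) (VR u) k l).symm
  have hx1a : ∀ k, C1.val (x1 k) = (nr E m (fun i => C1.val (V1 i))).adjugate k l := fun k =>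
    adj_map C1.val V1 k l
  have hx1 : ∀ k, C1.val (x1 k) = ν⁻¹ ^ 5 * kap E Ω (xR k) := by
    intro k
    rw [hx1a, hV1, adj_smul, ← hxV k]
    rfl
  have hxR0 : kap E Ω (xR i0) ≠ 0 := by
    intro h
    have h1 : xR i0 = 0 := by
      apply kap_inj (E := E) (Ω := Ω)
      rw [h, map_zero]
    have h2 := hev i0
    rw [h1, map_zero] at h2
    exact mul_ne_zero (pow_ne_zero 5 hj) hil h2.symm
  have hx10 : C1.val (x1 i0) ≠ 0 := by
    rw [hx1]
    exact mul_ne_zero (pow_ne_zero 5 (inv_ne_zero hi1)) hxR0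
  -- the vector `z0`
  have hNp : (nm E m (fun i => C1.val (V1 i))).mulVec (fun i => ν * po i)
      = fun i => algebraMap E (FF Ω) (ξ i) := by
    rw [hV1, nm_smul]
    have h1 : (fun i => ν * po i) = ν • po := rfl
    rw [h1, Matrix.mulVec_smul, Matrix.smul_mulVec, smul_smul, mul_inv_cancel₀ hi1, one_smul,
      nm_mulVec, hMV]
  have hmapv : (nm E m V1).map (algebraMap C1 (FF Ω)) = nm E m (fun i => C1.val (V1 i)) := by
    rw [nm_map C1.val V1]
    rfl
  obtain ⟨z0, hz0⟩ := hLSX C1 (FF Ω) (Fin (4 + 2)) (Fin (4 + 2)) (nm E m V1)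
    (fun i => algebraMap E C1 (ξ i)) (fun i => ν * po i) (by
      rw [hmapv, hNp]
      funext i
      rw [← IsScalarTower.algebraMap_apply])
  have hNz : (nm E m (fun i => C1.val (V1 i))).mulVec (fun i => C1.val (z0 i))
      = fun i => algebraMap E (FF Ω) (ξ i) := by
    rw [nm_map C1.val V1]
    funext i
    have h1 := congrArg C1.val (congrFun hz0 i)
    rw [← C1.val.commutes, ← h1]
    simp only [Matrix.mulVec, dotProduct, map_sum, map_mul, Matrix.map_apply]
  have hVC : (fun i => C1.val (V1 i)) ≠ 0 := by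
    intro h
    rw [hV1] at h
    have h1 : ν⁻¹ * V i1 = 0 := congrFun h i1
    rw [← hν, inv_mul_cancel₀ hi1] at h1
    exact one_ne_zero h1
  obtain ⟨γ, hγ⟩ := ker_one hADJ (A := nm E m (fun i => C1.val (V1 i)))
    (a := fun k => C1.val (x1 k)) (b := (fun i => ν * po i) - fun i => C1.val (z0 i))
    (by
      intro h
      apply hx10
      rw [hx1a i0]
      exact congrFun (congrFun h i0) l)
    (fun h => hx10 (congrFun h i0))
    (by
      have h1 := col_ker (det_nm hp _ hVC) l
      have h2 : (fun k => C1.val (x1 k)) =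
          fun i => (nm E m (fun i => C1.val (V1 i))).adjugate i l := by
        funext k
        exact hx1a k
      rw [h2]
      exact h1)
    (by rw [Matrix.mulVec_sub, hNp, hNz, sub_self])
  have hγ' : ∀ i, ν * po i = C1.val (z0 i) + γ * C1.val (x1 i) := by
    intro i
    have h1 := hγ i
    have h2 : ((fun i => ν * po i) - fun i => C1.val (z0 i)) i = ν * po i - C1.val (z0 i) := rfl
    rw [h2] at h1
    linear_combination h1
  -- the polynomial
  set g : Polynomial C1 :=
    aeval (fun i => Polynomial.C (z0 i) + Polynomial.X * Polynomial.C (x1 i)) f with hg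
  have hga : ∀ t : FF Ω, Polynomial.aeval t g
      = aeval (fun i => C1.val (z0 i) + t * C1.val (x1 i)) f := by
    intro t
    have h1 := hom_aeval ((Polynomial.aeval t : Polynomial C1 →ₐ[C1] FF Ω).restrictScalars E)
      (fun i => Polynomial.C (z0 i) + Polynomial.X * Polynomial.C (x1 i)) f
    have h2 : (fun i => ((Polynomial.aeval t : Polynomial C1 →ₐ[C1] FF Ω).restrictScalars E)
        (Polynomial.C (z0 i) + Polynomial.X * Polynomial.C (x1 i)))
        = fun i => C1.val (z0 i) + t * C1.val (x1 i) := by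
      funext i
      change Polynomial.aeval t (Polynomial.C (z0 i) + Polynomial.X * Polynomial.C (x1 i)) = _
      rw [map_add, map_mul, Polynomial.aeval_C, Polynomial.aeval_C, Polynomial.aeval_X]
      rfl
    rw [h2] at h1
    exact h1
  have hfqo : aeval qo f = 0 := by
    have h1 := hom_aeval D.val q f
    rw [hfq, map_zero] at h1
    exact h1.symm
  have hfpo : aeval po f = 0 := by
    have h1 := hom_aeval (iot E Ω) qo f
    rw [hfqo, map_zero] at h1
    exact h1.symm
  have hgγ : Polynomial.aeval γ g = 0 := by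
    rw [hga]
    have h1 : (fun i => C1.val (z0 i) + γ * C1.val (x1 i)) = fun i => ν * po i := by
      funext i
      exact (hγ' i).symm
    rw [h1, aeval_mul hf, hfpo, mul_zero]
  have hgn : g ≠ 0 := by
    intro h0
    apply hs'
    have hR : aeval (fun i => C (qo i) + C s' * xR i) f = 0 := by
      apply kap_inj (E := E) (Ω := Ω)
      rw [map_zero, hom_aeval (kap E Ω)]
      have h1 : (fun i => kap E Ω (C (qo i) + C s' * xR i))
          = fun i => po i + iot E Ω s' * kap E Ω (xR i) := by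
        funext i
        rw [map_add, map_mul, kap_C, kap_C]
      rw [h1]
      have h2 : (fun i => ν * (po i + iot E Ω s' * kap E Ω (xR i)))
          = fun i => C1.val (z0 i) + (γ + ν * iot E Ω s' * ν ^ 5) * C1.val (x1 i) := by
        funext i
        have h3 := hγ' i
        have h4 := hx1 i
        have h5 : ν ^ 5 * C1.val (x1 i) = kap E Ω (xR i) := by
          rw [h4, ← mul_assoc, ← mul_pow, mul_inv_cancel₀ hi1, one_pow, one_mul]
        rw [← h5]
        linear_combination h3
      have h6 := aeval_mul hf ν (fun i => po i + iot E Ω s' * kap E Ω (xR i))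
      rw [h2, ← hga, h0, map_zero] at h6
      rcases mul_eq_zero.1 h6.symm with h7 | h7
      · exact absurd h7 (pow_ne_zero 3 hi1)
      · exact h7
    have h8 := hom_aeval (evv E Ω α) (fun i => C (qo i) + C s' * xR i) f
    rw [hR, map_zero] at h8
    have h9 : (fun i => evv E Ω α (C (qo i) + C s' * xR i))
        = fun i => qo i + s' * evv E Ω α (xR i) := by
      funext i
      rw [map_add, map_mul, evv_C, evv_C]
    rw [h9] at h8
    exact h8.symm
  -- algebraic elements
  set A : IntermediateField C1 (FF Ω) := algebraicClosure C1 (FF Ω) with hA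
  have hmA : ∀ z : FF Ω, z ∈ A ↔ IsAlgebraic C1 z := fun z => mem_algebraicClosure_iff
  have hγA : γ ∈ A := (hmA γ).2 ⟨g, hgn, hgγ⟩
  have hC1A : ∀ z : C1, C1.val z ∈ A := fun z => A.algebraMap_mem z
  have hpA : ∀ i, ν * po i ∈ A := by
    intro i
    rw [hγ' i]
    exact A.add_mem (hC1A _) (A.mul_mem hγA (hC1A _))
  have hpoj : po j = 1 := by
    change iot E Ω (qo j) = 1
    rw [hqo' j, div_self hj, map_one]
  have hνA : ν ∈ A := by
    have h1 := hpA j
    rwa [hpoj, mul_one] at h1
  have hpoA : ∀ i, po i ∈ A := by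
    intro i
    have h1 := A.mul_mem (A.inv_mem hνA) (hpA i)
    rwa [← mul_assoc, inv_mul_cancel₀ hi1, one_mul] at h1
  have hpj : iot E Ω (p j) ≠ 0 := by
    intro h
    exact hj ((map_eq_zero _).1 h)
  have hDA : ∀ z ∈ D.map (iot E Ω), z ∈ A := by
    have h1 : D.map (iot E Ω) ≤ A.restrictScalars E := by
      rw [hD, ← rat_map, rat_eq (y := fun i => iot E Ω (p i)) hpj,
        IntermediateField.adjoin_le_iff]
      rintro _ ⟨i, rfl⟩
      have h2 : iot E Ω (p i) / iot E Ω (p j) = po i := by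
        change _ = iot E Ω (qo i)
        rw [hqo' i, map_div₀]
      have h3 : iot E Ω (p i) / iot E Ω (p j) ∈ A := by
        rw [h2]
        exact hpoA i
      exact h3
    intro z hz
    exact h1 hz
  have hVA : ∀ i, V i ∈ A := by
    intro i
    have h1 := A.mul_mem hνA (hC1A (V1 i))
    have h2 : ν * C1.val (V1 i) = V i := by
      change ν * (V i / ν) = V i
      field_simp
    rwa [h2] at h1
  have hβ : ∀ a, ∑ i, iot E Ω (D.val (r a i)) * V i ∈ A := by
    intro a
    refine A.sum_mem ?_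
    intro i _
    refine A.mul_mem (hDA _ ?_) (hVA i)
    exact ⟨D.val (r a i), (r a i).2, rfl⟩
  have hβ0 : kap E Ω (X 0) ∈ A := by
    rw [← hd1]
    exact hβ 1
  have hβ1 : kap E Ω (X 1) ∈ A := by
    rw [← hd2]
    exact hβ 2
  have hfin := hCNT E (FF Ω) (D.map (iot E Ω)) C1 (kap E Ω (X 0)) (kap E Ω (X 1)) 2
    (algInd D) (fun z hz => (hmA z).1 (hDA z hz)) ((hmA _).1 hβ0) ((hmA _).1 hβ1) (by
      have h1 : Algebra.trdeg E C1 ≤ (4 : ℕ) := hdim
      exact h1)
  rw [← dimLe_map (iot E Ω) p 2]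
  unfold DimLe
  rw [rat_map, ← hD]
  exact hfin

end Pool.Agent.SCT.H13
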