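import Pool.Agent.SCT.StmtsC

/-!
# Squad SCT, row RAT
-/

set_option autoImplicit false

namespace Pool.Agent.SCT.H13

open MvPolynomial

/-- the linear form with the coefficients `y`, as a linear map on the vectors over the base field -/
noncomputable def lin {k Ω : Type} [Field k] [Field Ω] [Algebra k Ω] {m : ℕ} (y : Fin m → Ω) :
    (Fin m → k) →ₗ[k] Ω where
  toFun := fun c => ∑ i, algebraMap k Ω (c i) * y i
  map_add' := by
    intro c d
    simp only [Pi.add_apply, map_add, add_mul, Finset.sum_add_distrib]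
  map_smul' := by
    intro r c
    simp only [Pi.smul_apply, smul_eq_mul, map_mul, RingHom.id_apply, Algebra.smul_def,
      Finset.mul_sum, mul_assoc]

theorem lin_apply {k Ω : Type} [Field k] [Field Ω] [Algebra k Ω] {m : ℕ} (y : Fin m → Ω)
    (c : Fin m → k) : lin (k := k) y c = ∑ i, algebraMap k Ω (c i) * y i := rfl

theorem lin_ker_ne {k Ω : Type} [Field k] [Field Ω] [Algebra k Ω] {m : ℕ} (y : Fin m → Ω)
    (hy : y ≠ 0) : LinearMap.ker (lin (k := k) y) ≠ ⊤ := by
  intro h
  apply hy
  funext i
  have h1 : (Pi.single i 1 : Fin m → k) ∈ LinearMap.ker (lin (k := k) y) := by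
    rw [h]; trivial
  rw [LinearMap.mem_ker, lin_apply, Finset.sum_eq_single i] at h1
  · simpa using h1
  · intro j _ hj
    rw [Pi.single_eq_of_ne hj, map_zero, zero_mul]
  · intro h2
    exact absurd (Finset.mem_univ i) h2

/-- a vector over an infinite field where finitely many nonzero linear forms do not vanish -/
theorem exists_vec {k Ω : Type} [Field k] [Infinite k] [Field Ω] [Algebra k Ω] {m r : ℕ}
    (y : Fin r → Fin m → Ω) (hy : ∀ s, y s ≠ 0) :
    ∃ c : Fin m → k, ∀ s, ∑ i, algebraMap k Ω (c i) * y s i ≠ 0 := by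
  by_contra hcon
  push Not at hcon
  have h1 : ⋃ s, ((LinearMap.ker (lin (k := k) (y s)) : Submodule k (Fin m → k)) :
      Set (Fin m → k)) = Set.univ := by
    rw [Set.eq_univ_iff_forall]
    intro c
    obtain ⟨s, hs⟩ := hcon c
    rw [Set.mem_iUnion]
    exact ⟨s, hs⟩
  obtain ⟨s, hs⟩ := Subspace.exists_eq_top_of_iUnion_eq_univ h1
  exact lin_ker_ne (y s) (hy s) hs

theorem gen_ne (k : Type) [Field k] (n : ℕ) : gen k n ≠ 0 := by
  intro h
  have h1 : gen k n 0 = 0 := congrFun h 0
  unfold gen at h1
  have h2 := (map_eq_zero_iff _ (IsFractionRing.injective (MvPolynomial (Fin (n + 2)) k)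
    (FT k n))).1 h1
  exact X_ne_zero (R := k) (0 : Fin (n + 2)) h2

theorem pt_ne (hEXP : ExpStmt) (k : Type) [Field k] (n : ℕ) (f : MvPolynomial (Fin (n + 2)) k)
    (hf : f.IsHomogeneous 3) (hf0 : f ≠ 0) (x : Fin (n + 2) → FT k n) (hx : aeval x f = 0)
    (u : Cl k n) : pt k n x u ≠ 0 := by
  intro h
  have h0 : ∀ i, algebraMap (FT k n) (Cl k n) (gen k n i) =
      (-u) * algebraMap (FT k n) (Cl k n) (x i) := by
    intro i
    have := congrFun h i
    simp only [pt, Pi.zero_apply] at this
    linear_combination this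
  have h1 : aeval (fun i => algebraMap (FT k n) (Cl k n) (gen k n i)) f =
      algebraMap (FT k n) (Cl k n) (aeval (gen k n) f) :=
    aeval_algebraMap_apply (Cl k n) (gen k n) f
  have h2 : aeval (fun i => algebraMap (FT k n) (Cl k n) (x i)) f =
      algebraMap (FT k n) (Cl k n) (aeval x f) :=
    aeval_algebraMap_apply (Cl k n) x f
  have h3 := (hEXP k (Cl k n) (Fin (n + 2)) f hf
    (fun i => algebraMap (FT k n) (Cl k n) (x i)) 0 (-u)).2.2.2.1
  rw [h2, hx, map_zero, mul_zero] at h3
  have h4 : (fun i => algebraMap (FT k n) (Cl k n) (gen k n i)) =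
      fun i => (-u) * algebraMap (FT k n) (Cl k n) (x i) := funext h0
  rw [h4, h3] at h1
  have h5 : aeval (gen k n) f = 0 := by
    apply (algebraMap (FT k n) (Cl k n)).injective
    rw [map_zero]
    exact h1.symm
  exact aeval_gen_ne hf0 h5

theorem rat (hANI : AniStmt) (hEXP : ExpStmt) (hPTS : PtsStmt) (hFLD : FldStmt) : RatStmt := by
  intro k _ _ n a b f x u v hab hf hns hsec hdim
  have hf0 : f ≠ 0 := hns.ne_zero
  have : Infinite k := IsAlgClosed.instInfinite
  have hx0 := hsec.ne
  have hxf := hsec.zero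
  -- the four vectors
  have hX : (fun i => algebraMap (FT k n) (Cl k n) (x i)) ≠ 0 := by
    intro h
    apply hx0
    funext i
    apply (algebraMap (FT k n) (Cl k n)).injective
    rw [Pi.zero_apply, map_zero]
    exact congrFun h i
  have hT : (fun i => algebraMap (FT k n) (Cl k n) (gen k n i)) ≠ 0 := by
    intro h
    apply gen_ne k n
    funext i
    apply (algebraMap (FT k n) (Cl k n)).injective
    rw [Pi.zero_apply, map_zero]
    exact congrFun h i
  obtain ⟨c, hc⟩ := exists_vec (k := k) (Ω := Cl k n) (m := n + 2) (r := 4)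
    ![pt k n x u, pt k n x v, fun i => algebraMap (FT k n) (Cl k n) (x i),
      fun i => algebraMap (FT k n) (Cl k n) (gen k n i)] (by
      intro s
      fin_cases s
      · exact pt_ne hEXP k n f hf hf0 x hxf u
      · exact pt_ne hEXP k n f hf hf0 x hxf v
      · exact hX
      · exact hT)
  have hcu : ∑ i, algebraMap k (Cl k n) (c i) * pt k n x u i ≠ 0 := hc 0
  have hcv : ∑ i, algebraMap k (Cl k n) (c i) * pt k n x v i ≠ 0 := hc 1
  have hcx' : ∑ i, algebraMap k (Cl k n) (c i) * algebraMap (FT k n) (Cl k n) (x i) ≠ 0 := hc 2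
  have hct' : ∑ i, algebraMap k (Cl k n) (c i) *
      algebraMap (FT k n) (Cl k n) (gen k n i) ≠ 0 := hc 3
  set t : FT k n := ∑ j, algebraMap k (FT k n) (c j) * gen k n j with ht
  set s : FT k n := ∑ j, algebraMap k (FT k n) (c j) * x j with hs
  have hmap : ∀ y : Fin (n + 2) → FT k n,
      ∑ i, algebraMap k (Cl k n) (c i) * algebraMap (FT k n) (Cl k n) (y i) =
        algebraMap (FT k n) (Cl k n) (∑ j, algebraMap k (FT k n) (c j) * y j) := by
    intro y
    rw [map_sum]
    apply Finset.sum_congr rfl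
    intro i _
    rw [map_mul, ← IsScalarTower.algebraMap_apply]
  rw [hmap] at hcx' hct'
  have ht0 : t ≠ 0 := by
    intro h
    apply hct'
    rw [← ht, h, map_zero]
  have hs0 : s ≠ 0 := by
    intro h
    apply hcx'
    rw [← hs, h, map_zero]
  have hpt : ∀ z : Cl k n, ∑ i, algebraMap k (Cl k n) (c i) * pt k n x z i =
      algebraMap (FT k n) (Cl k n) t + z * algebraMap (FT k n) (Cl k n) s := by
    intro z
    rw [ht, hs, ← hmap, ← hmap, Finset.mul_sum, ← Finset.sum_add_distrib]
    apply Finset.sum_congr rfl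
    intro i _
    unfold pt
    ring
  rw [hpt] at hcu hcv
  have hc0 : c ≠ 0 := by
    intro h
    apply ht0
    rw [ht, h]
    simp
  -- the point of the hyperplane
  set w : Fin (n + 2) → FT k n := hyp k n c x with hw
  have hwi : ∀ i, w i = t * x i - s * gen k n i := fun i => rfl
  set μ : FT k n := s / t with hμ
  have hwμ : w = fun i => t * (x i - μ * gen k n i) := by
    funext i
    rw [hwi, hμ]
    field_simp
  have hcw : ∑ i, algebraMap k (FT k n) (c i) * w i = 0 := by
    have h1 : ∑ i, algebraMap k (FT k n) (c i) * w i =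
        t * ∑ i, algebraMap k (FT k n) (c i) * x i -
          s * ∑ i, algebraMap k (FT k n) (c i) * gen k n i := by
      rw [Finset.mul_sum, Finset.mul_sum, ← Finset.sum_sub_distrib]
      apply Finset.sum_congr rfl
      intro i _
      rw [hwi]
      ring
    rw [← hs, ← ht] at h1
    rw [h1]; ring
  have hw0 : w ≠ 0 := by
    intro h
    have h1 : x = fun i => μ * gen k n i := by
      funext i
      have h2 := congrFun h i
      rw [hwμ] at h2
      simp only [Pi.zero_apply, mul_eq_zero] at h2
      rcases h2 with h2 | h2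
      · exact absurd h2 ht0
      · exact sub_eq_zero.1 h2
    have h3 := (hEXP k (FT k n) (Fin (n + 2)) f hf (gen k n) 0 μ).2.2.2.1
    rw [← h1, hxf] at h3
    have h4 : μ ^ 3 ≠ 0 := pow_ne_zero _ (div_ne_zero hs0 ht0)
    exact (mul_ne_zero h4 (aeval_gen_ne hf0)) h3.symm
  have hspan : gen k n ∈ Submodule.span (FT k n) {x, w} := by
    rw [Submodule.mem_span_pair]
    refine ⟨t / s, -(1 / s), ?_⟩
    funext i
    simp only [Pi.add_apply, Pi.smul_apply, smul_eq_mul]
    rw [hwi]
    field_simp
    ring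
  have ha2 : dd f x (gen k n) ≠ 0 := hANI k n f hf hns x hx0 hxf
  have hval : μ ^ 2 * aeval (gen k n) f - μ * dd f (gen k n) x + dd f x (gen k n) ≠ 0 := by
    intro h
    have h1 := congrArg (algebraMap (FT k n) (Cl k n)) h
    rw [map_add, map_sub, map_mul, map_mul, map_pow, map_zero, hsec.sum, hsec.prod] at h1
    have h2 : algebraMap (FT k n) (Cl k n) (dd f x (gen k n)) ≠ 0 := by
      intro h3
      apply ha2
      apply (algebraMap (FT k n) (Cl k n)).injective
      rw [h3, map_zero]
    have ht0' : algebraMap (FT k n) (Cl k n) t ≠ 0 := hct'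
    have h4 : algebraMap (FT k n) (Cl k n) μ * algebraMap (FT k n) (Cl k n) t =
        algebraMap (FT k n) (Cl k n) s := by
      rw [← map_mul, hμ, div_mul_cancel₀ _ ht0]
    have h5 : algebraMap (FT k n) (Cl k n) t + u * algebraMap (FT k n) (Cl k n) s =
        algebraMap (FT k n) (Cl k n) t * (1 + u * algebraMap (FT k n) (Cl k n) μ) := by
      rw [← h4]; ring
    have h6 : algebraMap (FT k n) (Cl k n) t + v * algebraMap (FT k n) (Cl k n) s =
        algebraMap (FT k n) (Cl k n) t * (1 + v * algebraMap (FT k n) (Cl k n) μ) := by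
      rw [← h4]; ring
    rw [h5] at hcu
    rw [h6] at hcv
    have h7 := right_ne_zero_of_mul hcu
    have h8 := right_ne_zero_of_mul hcv
    apply mul_ne_zero (mul_ne_zero h2 h7) h8
    linear_combination h1
  refine hFLD k n f x w c hf hx0 hw0 hc0 hxf hcw hspan (hdim c) ?_ ?_
  · intro d hd
    refine hPTS k n a b f x u v 0 d hab hf hns hsec ?_ ?_
    · simpa using ha2
    · simpa using hd
  · intro d hd
    refine hPTS k n a b f x u v μ d hab hf hns hsec hval ?_
    unfold DimLe at hd ⊢
    rw [hwμ, rat_smul ht0] at hd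
    exact hd

end Pool.Agent.SCT.H13
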